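import Pool.Agent.helper79.SX.Spec

/-!
# Project sx: (MP_5628fe_nt): VBD, lower bounds for the product over a block
-/

set_option autoImplicit false

namespace Pool.Agent.SX

theorem VBD_exp (x : ℝ) (hx : x ≤ 8 / 5) : Real.exp x ≤ 5 := by
  have h1 : Real.exp x ≤ Real.exp (8 / 5) := Real.exp_le_exp.mpr hx
  refine h1.trans ?_
  have h2 : Real.exp (8 / 5) ^ 5 ≤ 5 ^ 5 := by
    rw [← Real.exp_nat_mul]
    have h3 : ((5 : ℕ) : ℝ) * (8 / 5) = ((8 : ℕ) : ℝ) * 1 := by norm_num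
    rw [h3, Real.exp_nat_mul]
    have h4 : Real.exp 1 ≤ 2.7182818286 := Real.exp_one_lt_d9.le
    calc Real.exp 1 ^ 8 ≤ (2.7182818286 : ℝ) ^ 8 := pow_le_pow_left₀ (Real.exp_pos 1).le h4 8
      _ ≤ 5 ^ 5 := by norm_num
  exact le_of_pow_le_pow_left₀ (by norm_num) (by norm_num) h2

theorem VBD_aux (h0 h h' : ℕ) (lam : ℝ) (hEBD : EBD_stmt) (h1 : 28 ≤ h0) (h2 : h0 ≤ h) (h3 : h ≤ h')
    (hs : sig h h' ≤ lam) (hl : lam * (1 + 2 / 2 ^ (h0 / 10)) ≤ 8 / 5) : 1 / 5 ≤ V (Bl h h') := by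
  obtain ⟨hV, -, hE⟩ := hEBD h0 h h' lam h1 h2 h3 hs
  have h5 := hE.trans (VBD_exp _ hl)
  rw [div_le_iff₀ hV] at h5
  rw [div_le_iff₀ (by norm_num : (0 : ℝ) < 5)]
  linarith

theorem VBD (hEBD : EBD_stmt) : VBD_stmt := by
  refine ⟨fun h h' h1 h2 hs => ?_, fun hs => ?_⟩
  · refine VBD_aux 60 h h' (31 / 20) hEBD (by norm_num) h1 h2 hs ?_
    norm_num
  · refine VBD_aux 30 30 60 (27 / 25) hEBD (by norm_num) le_rfl (by norm_num) hs ?_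
    norm_num

end Pool.Agent.SX
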